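import Pool.Agent.W845.PM.Base

set_option autoImplicit false
open scoped Classical
open Filter Topology
open scoped BigOperators

namespace Pool.Agent.W845.HC

open Pool.Agent.W845.PM

noncomputable section

/-- Number of neighbours of `v`. -/
def dg {V : Type} [Fintype V] (F : SimpleGraph V) (v : V) : ℕ :=
  (Finset.univ.filter (fun w => F.Adj v w)).card

/-- Number of edges. -/
def ec {V : Type} (F : SimpleGraph V) : ℕ := F.edgeSet.ncard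

/-- A linear forest: acyclic with maximum degree at most two. -/
def IsLF {V : Type} [Fintype V] (F : SimpleGraph V) : Prop :=
  F.IsAcyclic ∧ ∀ v, dg F v ≤ 2

/-- The maximum number of edges of a linear forest contained in `G`. -/
def lam {V : Type} [Fintype V] (G : SimpleGraph V) : ℕ :=
  (Finset.univ.filter (fun F : SimpleGraph V => F ≤ G ∧ IsLF F)).sup ec

/-- Number of ordered adjacent pairs leaving `X` on the left and `Y` on the right. -/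
def arcs {V : Type} [Fintype V] (G : SimpleGraph V) (X Y : Finset V) : ℕ :=
  (Finset.univ.filter (fun e : V × V => e.1 ∉ X ∧ e.2 ∉ Y ∧ G.Adj e.1 e.2)).card

/-- Number of rooted oriented cycles of length `3, ..., L+2`. -/
def cyc {V : Type} [Fintype V] (L : ℕ) (G : SimpleGraph V) : ℕ :=
  ∑ l ∈ Finset.range L, (Finset.univ.filter (fun f : Fin (l + 3) → V =>
    Function.Injective f ∧ ∀ i : Fin (l + 3), G.Adj (f i) (f (i + 1)))).card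

/-- No subgraph with at most `L+2` edges contains a cycle (girth at least `L+3`). -/
def NS {V : Type} [Fintype V] (L : ℕ) (G : SimpleGraph V) : Prop :=
  ∀ E : SimpleGraph V, E ≤ G → ec E ≤ L + 2 → E.IsAcyclic

/-- Distance to Hamiltonicity. -/
def dft {V : Type} [Fintype V] (G : SimpleGraph V) : ℕ :=
  if G.IsHamiltonian then 0 else Fintype.card V - lam G

/-! Random graphs -/

def S_SUP : Prop := ∀ (n : ℕ) (p q : ℝ) (f : SimpleGraph (Fin n) → ℝ),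
  EG n p (fun G => EG n q (fun G' => f (G ⊔ G'))) = EG n (p + q - p * q) f

def S_MON : Prop := ∀ (n : ℕ) (p p' : ℝ) (f : SimpleGraph (Fin n) → ℝ), 0 ≤ p → p ≤ p' →
  p' ≤ 1 → (∀ G G', G ≤ G' → f G ≤ f G') → EG n p f ≤ EG n p' f

def S_GENF : Prop := ∀ (n : ℕ) (q x : ℝ) (H : SimpleGraph (Fin n)),
  EG n q (fun Q => x ^ (ec (H ⊓ Q))) = (1 - q + q * x) ^ (ec H)

def S_ECYC : Prop := ∀ (n L : ℕ) (q : ℝ), 0 ≤ q → q ≤ 1 →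
  EG n q (fun G => (cyc L G : ℝ)) ≤ ∑ l ∈ Finset.range L, ((n : ℝ) * q) ^ (l + 3)

def S_CHER : Prop := ∀ θ : ℝ, 0 < θ → ∃ (D : ℝ) (N : ℕ), 0 < D ∧ ∀ (n : ℕ)
  (H : SimpleGraph (Fin n)), N ≤ n → D / n ≤ 1 ∧
  EG n (D / n) (fun Q => if (∀ X Y : Finset (Fin n), θ * n ^ 2 ≤ (arcs H X Y : ℝ) →
    2 * (n : ℝ) ≤ (arcs (H ⊓ Q) X Y : ℝ)) then (0 : ℝ) else 1) ≤ Real.exp (-(n : ℝ))

/-! Linear forests -/

def S_FC : Prop := ∀ (V : Type) [Fintype V] (F : SimpleGraph V), F.IsAcyclic →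
  ec F + Nat.card F.ConnectedComponent = Fintype.card V

def S_LAM : Prop :=
  (∀ (V : Type) [Fintype V] (G : SimpleGraph V), ∃ F : SimpleGraph V, F ≤ G ∧ IsLF F ∧
    ec F = lam G) ∧
  (∀ (V : Type) [Fintype V] (G F : SimpleGraph V), F ≤ G → IsLF F → ec F ≤ lam G) ∧
  (∀ (V : Type) [Fintype V] (G G' : SimpleGraph V), G ≤ G' → lam G ≤ lam G') ∧
  (∀ (V : Type) [Fintype V] (G : SimpleGraph V), lam G ≤ Fintype.card V - 1) ∧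
  (∀ (V : Type) [Fintype V] (G G' : SimpleGraph V) (v : V), del G v = del G' v →
    |(lam G : ℝ) - lam G'| ≤ 2) ∧
  (∀ n : ℕ, lam (⊤ : SimpleGraph (Fin n)) = n - 1)

/-- Maximum simple 2-matchings in bipartite digraphs: min-max. -/
def S_FLOW : Prop := ∀ (V : Type) [Fintype V] (A : V → V → Prop),
  ∃ M : Finset (V × V), (∀ e ∈ M, A e.1 e.2) ∧
    (∀ v, (M.filter (fun e => e.1 = v)).card ≤ 2) ∧
    (∀ v, (M.filter (fun e => e.2 = v)).card ≤ 2) ∧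
    ∃ X Y : Finset V, 2 * X.card + 2 * Y.card +
      (Finset.univ.filter (fun e : V × V => e.1 ∉ X ∧ e.2 ∉ Y ∧ A e.1 e.2)).card ≤ M.card

def S_HALF : Prop := ∀ (V : Type) [Fintype V] (G : SimpleGraph V) (L : ℕ)
  (M : Finset (V × V)), NS L G → (∀ e ∈ M, G.Adj e.1 e.2) →
  (∀ v, (M.filter (fun e => e.1 = v)).card ≤ 2) →
  (∀ v, (M.filter (fun e => e.2 = v)).card ≤ 2) →
  ∃ F : SimpleGraph V, F ≤ G ∧ (∀ v, dg F v ≤ 2) ∧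
    (M.card : ℝ) ≤ 2 * (ec F : ℝ) + 2 * (Fintype.card V : ℝ) / (L + 3)

def S_BREAK : Prop := ∀ (V : Type) [Fintype V] (F : SimpleGraph V) (L : ℕ), NS L F →
  (∀ v, dg F v ≤ 2) → ∃ F' : SimpleGraph V, F' ≤ F ∧ IsLF F' ∧
    (ec F : ℝ) ≤ (ec F' : ℝ) + (Fintype.card V : ℝ) / (L + 3)

def S_GIRTH : Prop := ∀ (V : Type) [Fintype V] (G : SimpleGraph V) (L : ℕ),
  ∃ G' : SimpleGraph V, G' ≤ G ∧ ec G ≤ ec G' + cyc L G ∧ NS L G'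

def S_DUAL : Prop := ∀ (V : Type) [Fintype V] (G : SimpleGraph V) (L : ℕ) (x : ℝ),
  (∀ X Y : Finset V, 2 * x ≤ 2 * (X.card : ℝ) + 2 * (Y.card : ℝ) + (arcs G X Y : ℝ)) →
  x - (cyc L G : ℝ) - 2 * (Fintype.card V : ℝ) / (L + 3) ≤ (lam G : ℝ)

def S_COVER : Prop := ∀ (n d : ℕ) (κ η : ℝ) (H R Q : SimpleGraph (Fin n)), 0 < κ → 0 < η →
  1 ≤ n → 2 * d ≤ n →
  (∀ v : Fin n, ∃ e : Fin (n - d) ↪ Fin n, (∀ x, x ∉ Set.range e → H.Adj v x) ∧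
    (n : ℝ) - 2 * d + η * n ≤ (lam (R.comap e) : ℝ)) →
  (∀ X Y : Finset (Fin n), κ * η / 2 * n ^ 2 ≤ (arcs H X Y : ℝ) →
    2 * (n : ℝ) ≤ (arcs (H ⊓ Q) X Y : ℝ)) →
  ∀ X Y : Finset (Fin n), 2 * ((1 - κ) * n) ≤
    2 * (X.card : ℝ) + 2 * (Y.card : ℝ) + (arcs ((H ⊓ Q) ⊔ R) X Y : ℝ)

def S_G1 : Prop := ∀ a κ η C δ : ℝ, 0 < a → 0 < κ → 0 < η → 0 < C → 0 < δ →
  ∃ N : ℕ, ∀ (n d : ℕ) (p : ℝ) (H : SimpleGraph (Fin n)), N ≤ n → a * n ≤ d → 2 * d ≤ n →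
    0 ≤ p → p ≤ 1 → p ≤ C / n →
    (n : ℝ) - 2 * d + 2 * η * n ≤ EG (n - d) p (fun R => (lam R : ℝ)) → d ≤ H.minDegree →
    EG n p (fun R => if (1 - κ) * n ≤ (lam (H ⊔ R) : ℝ) then (0 : ℝ) else 1) ≤ δ

/-! The threshold function -/

def S_GAIN : Prop := ∀ (m : ℕ) (q : ℝ) (G : SimpleGraph (Fin m)), 0 ≤ q → q ≤ 1 →
  (lam G : ℝ) + ((m : ℝ) - lam G) * ((m : ℝ) - lam G - 1) * q / 2 -
    ((m : ℝ) - lam G) ^ 3 * q ^ 2 / 2 ≤ EG m q (fun G' => (lam (G ⊔ G') : ℝ))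

def S_GROW : Prop := ∀ a : ℝ, 0 < a → a < 1 → ∃ N : ℕ, ∀ (n m : ℕ) (p q : ℝ), N ≤ n →
  m ≤ n → 0 ≤ p → p ≤ 1 → 0 ≤ q → q ≤ a ^ 2 / 4 / n →
  a * n ≤ (m : ℝ) - EG m p (fun G => (lam G : ℝ)) →
  EG m p (fun G => (lam G : ℝ)) + a ^ 2 / 4 * n ^ 2 * q ≤
    EG m (p + q - p * q) (fun G => (lam G : ℝ))

/-- `p` is the point where the expected maximum linear forest of `G(n-d,p)` is `n-2d`. -/
def Crit (n d : ℕ) (p : ℝ) : Prop :=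
  0 ≤ p ∧ p ≤ 1 ∧ EG (n - d) p (fun G => (lam G : ℝ)) = (n : ℝ) - 2 * d

def S_PEX : Prop := ∀ n d : ℕ, 1 ≤ d → 2 * d ≤ n → ∃ p : ℝ, Crit n d p

def S_PST1 : Prop := ∀ a b : ℝ, 0 < a → b < 1 / 2 → ∃ (c0 C0 : ℝ) (N : ℕ), 0 < c0 ∧ 0 < C0 ∧
  ∀ (n d : ℕ) (p : ℝ), N ≤ n → a * n ≤ d → d ≤ b * n → Crit n d p → c0 / n ≤ p ∧ p ≤ C0 / n

def S_PST2 : Prop := ∀ a b ε : ℝ, 0 < a → b < 1 / 2 → 0 < ε → ε < 1 → ∃ (η : ℝ) (N : ℕ),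
  0 < η ∧ ∀ (n d : ℕ) (p : ℝ), N ≤ n → a * n ≤ d → d ≤ b * n → Crit n d p →
    (n : ℝ) - 2 * d + η * n ≤ EG (n - d) ((1 + ε) * p) (fun G => (lam G : ℝ)) ∧
    EG (n - d) ((1 - ε) * p) (fun G => (lam G : ℝ)) ≤ (n : ℝ) - 2 * d - η * n

def S_QTH : Prop := ∀ a b ε δ : ℝ, 0 < a → b < 1 / 2 → 0 < ε → ε < 1 → 0 < δ → ∃ N : ℕ,
  ∀ (n d : ℕ) (p q : ℝ), N ≤ n → a * n ≤ d → d ≤ b * n → Crit n d p → 0 ≤ q → q ≤ 1 →
    ((1 + ε) * p ≤ q → 1 - δ ≤ EG (n - d) q (fun G => if n ≤ lam G + 2 * d then (1 : ℝ) else 0)) ∧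
    (q ≤ (1 - ε) * p → EG (n - d) q (fun G => if n ≤ lam G + 2 * d then (1 : ℝ) else 0) ≤ δ)

/-! Rotations -/

def S_R1 : Prop := ∀ (V : Type) [Fintype V] (G F : SimpleGraph V) (x y z : V), F ≤ G → IsLF F →
  ec F = lam G → ¬ F.Reachable x y → dg F x ≤ 1 → dg F y ≤ 1 → G.Adj x z → ¬ F.Adj x z →
  ∃ a : V, F.Adj z a ∧ ∃ F1 : SimpleGraph V, F1 = (F \ SimpleGraph.edge z a) ⊔ SimpleGraph.edge x z ∧
    F1 ≤ G ∧ IsLF F1 ∧ ec F1 = lam G ∧ ¬ F1.Reachable y a ∧ dg F1 y ≤ 1 ∧ dg F1 a ≤ 1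

def S_R2 : Prop := ∀ (V : Type) [Fintype V] (G F : SimpleGraph V) (x y z : V),
  3 ≤ Fintype.card V → ¬ G.IsHamiltonian → F ≤ G → IsLF F → ec F = Fintype.card V - 1 →
  x ≠ y → dg F x ≤ 1 → dg F y ≤ 1 → G.Adj x z → ¬ F.Adj x z →
  ∃ a : V, F.Adj z a ∧ ∃ F1 : SimpleGraph V, F1 = (F \ SimpleGraph.edge z a) ⊔ SimpleGraph.edge x z ∧
    F1 ≤ G ∧ IsLF F1 ∧ ec F1 = Fintype.card V - 1 ∧ y ≠ a ∧ dg F1 y ≤ 1 ∧ dg F1 a ≤ 1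

def S_CLOSE : Prop := ∀ (V : Type) [Fintype V] (F G : SimpleGraph V) (x y : V),
  3 ≤ Fintype.card V → IsLF F → ec F = Fintype.card V - 1 → x ≠ y → dg F x ≤ 1 → dg F y ≤ 1 →
  F ≤ G → G.Adj x y → G.IsHamiltonian

def S_ENDS : Prop :=
  (∀ (V : Type) [Fintype V] (F : SimpleGraph V), IsLF F → ec F + 2 ≤ Fintype.card V →
    ∃ x y : V, ¬ F.Reachable x y ∧ dg F x ≤ 1 ∧ dg F y ≤ 1) ∧
  (∀ (V : Type) [Fintype V] (F : SimpleGraph V), 2 ≤ Fintype.card V → IsLF F →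
    ec F = Fintype.card V - 1 → ∃ x y : V, x ≠ y ∧ dg F x ≤ 1 ∧ dg F y ≤ 1)

def S_DMONO : Prop := ∀ (V : Type) [Fintype V] (G G' : SimpleGraph V), G ≤ G' →
  dft G' ≤ dft G

def S_GOODP : Prop := ∀ (n s : ℕ) (G : SimpleGraph (Fin n)), 3 ≤ n → 1 ≤ s → s ≤ G.minDegree →
  1 ≤ dft G → (s - 1) ^ 2 ≤ 4 * (Finset.univ.filter (fun e : Fin n × Fin n =>
    e.1 ≠ e.2 ∧ dft (G ⊔ SimpleGraph.edge e.1 e.2) < dft G)).card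

def S_ROUND : Prop := ∀ (n s : ℕ) (q : ℝ) (G : SimpleGraph (Fin n)), 3 ≤ n → 1 ≤ s →
  s ≤ G.minDegree → 1 ≤ dft G → 0 ≤ q → q ≤ 1 →
  EG n q (fun G' => if dft (G ⊔ G') < dft G then (0 : ℝ) else 1) ≤
    Real.exp (-(q * ((s : ℝ) - 1) ^ 2 / 8))

def S_MERGE : Prop := ∀ (n s : ℕ) (q : ℝ), 3 ≤ n → 1 ≤ s → 0 ≤ q → q ≤ 1 →
  Real.exp (-(q * ((s : ℝ) - 1) ^ 2 / 8)) ≤ 1 / 2 →
  ∀ (T : ℕ) (G : SimpleGraph (Fin n)), s ≤ G.minDegree →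
    EG n (1 - (1 - q) ^ T) (fun G' => if (G ⊔ G').IsHamiltonian then (0 : ℝ) else 1) ≤
      (7 / 10 : ℝ) ^ T * Real.exp (dft G)

/-! Final statements -/

def S_KBH : Prop := ∀ (n d : ℕ) (R : SimpleGraph (Fin n)) (e : Fin (n - d) ↪ Fin n), 3 ≤ n →
  1 ≤ d → d ≤ n → (∀ x : Fin n, x ∈ Set.range e ↔ d ≤ x.val) → (KB n d ⊔ R).IsHamiltonian →
  n ≤ lam (R.comap e) + 2 * d

def S_LOW : Prop := ∀ a b ε δ : ℝ, 0 < a → b < 1 / 2 → 0 < ε → ε < 1 → 0 < δ → ∃ N : ℕ,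
  ∀ (n d : ℕ) (p q : ℝ), N ≤ n → a * n ≤ d → d ≤ b * n → Crit n d p → 0 ≤ q → q ≤ 1 →
    q ≤ (1 - ε) * p → d ≤ (KB n d).minDegree ∧
    EG n q (fun R => if (KB n d ⊔ R).IsHamiltonian then (1 : ℝ) else 0) ≤ δ

def S_HIGH : Prop := ∀ a b ε δ : ℝ, 0 < a → b < 1 / 2 → 0 < ε → ε < 1 → 0 < δ → ∃ N : ℕ,
  ∀ (n d : ℕ) (p q : ℝ) (H : SimpleGraph (Fin n)), N ≤ n → a * n ≤ d → d ≤ b * n →
    Crit n d p → 0 ≤ q → q ≤ 1 → (1 + ε) * p ≤ q → d ≤ H.minDegree →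
    1 - δ ≤ EG n q (fun R => if (H ⊔ R).IsHamiltonian then (1 : ℝ) else 0)

end

end Pool.Agent.W845.HC
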