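import Pool.Agent.W845.HC.Base

set_option autoImplicit false
open Classical

namespace Pool.Agent.W845.HC
open Pool.Agent.W845.PM

theorem pst2 : S_LAM → S_MON → S_GROW → S_PST1 → S_PST2 := by
  intro hL hM hG hP a b ε ha hb hε hε1
  obtain ⟨c0, C0, N1, hc0, hC0, hP1⟩ := hP a b ha hb
  have hL3 := hL.2.2.1
  set a' : ℝ := min a (1 / 2) with ha'
  have ha0 : 0 < a' := lt_min ha (by norm_num)
  have ha1 : a' ≤ 1 / 2 := min_le_right _ _
  obtain ⟨N2, hN2⟩ := hG a' ha0 (by linarith)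
  obtain ⟨N3, hN3⟩ := exists_nat_gt (2 * C0)
  set r : ℝ := min (ε * c0) (a' ^ 2 / 4) with hr
  have hr0 : 0 < r := lt_min (by positivity) (by positivity)
  refine ⟨a' ^ 2 / 4 * r, max (max N1 N2) (max N3 1), by positivity, ?_⟩
  intro n d p hn had hdb hC
  have hn1 : 1 ≤ n := (le_trans (le_max_right _ _) (le_max_right _ _)).trans hn
  have hnN1 : N1 ≤ n := (le_trans (le_max_left _ _) (le_max_left _ _)).trans hn
  have hnN2 : N2 ≤ n := (le_trans (le_max_right _ _) (le_max_left _ _)).trans hn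
  have hnN3 : N3 ≤ n := (le_trans (le_max_left _ _) (le_max_right _ _)).trans hn
  have hnR : (0 : ℝ) < n := by exact_mod_cast hn1
  obtain ⟨h1, h2⟩ := hP1 n d p hnN1 had hdb hC
  obtain ⟨hp0, hp1, hE⟩ := hC
  have hdn : d ≤ n := by
    have : (d : ℝ) ≤ n := by nlinarith
    exact_mod_cast this
  have hcast : ((n - d : ℕ) : ℝ) = (n : ℝ) - d := by
    rw [Nat.cast_sub hdn]
  have hn3 : 2 * C0 < (n : ℝ) := lt_of_lt_of_le hN3 (by exact_mod_cast hnN3)
  have hp2 : p ≤ 1 / 2 := by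
    refine h2.trans ?_
    rw [div_le_div_iff₀ hnR (by norm_num)]
    linarith
  have hup : (1 + ε) * p ≤ 1 := by nlinarith
  have hlo : 0 ≤ (1 - ε) * p := mul_nonneg (by linarith) hp0
  have hlo1 : (1 - ε) * p ≤ p := by nlinarith
  have hmonf : ∀ G G' : SimpleGraph (Fin (n - d)), G ≤ G' → (lam G : ℝ) ≤ (lam G' : ℝ) := by
    intro G G' h
    exact_mod_cast hL3 _ G G' h
  have had' : a' * n ≤ d := le_trans (mul_le_mul_of_nonneg_right (min_le_left _ _) hnR.le) had
  set q : ℝ := r / n with hq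
  have hq0 : 0 ≤ q := by positivity
  have hqe : q ≤ ε * p := by
    calc q ≤ ε * c0 / n := by
          rw [hq]
          exact div_le_div_of_nonneg_right (min_le_left _ _) hnR.le
      _ = ε * (c0 / n) := by ring
      _ ≤ ε * p := mul_le_mul_of_nonneg_left h1 hε.le
  have hqa : q ≤ a' ^ 2 / 4 / n := by
    rw [hq]
    exact div_le_div_of_nonneg_right (min_le_right _ _) hnR.le
  have hgain : a' ^ 2 / 4 * (n : ℝ) ^ 2 * q = a' ^ 2 / 4 * r * n := by
    rw [hq]
    field_simp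
  constructor
  · have g1 := hN2 n (n - d) p q hnN2 (Nat.sub_le _ _) hp0 hp1 hq0 hqa (by
      rw [hE, hcast]; linarith)
    have g2 : EG (n - d) (p + q - p * q) (fun G => (lam G : ℝ)) ≤
        EG (n - d) ((1 + ε) * p) (fun G => (lam G : ℝ)) := by
      refine hM _ _ _ _ ?_ ?_ hup hmonf
      · nlinarith
      · have : 0 ≤ p * q := mul_nonneg hp0 hq0
        nlinarith
    rw [hgain, hE] at g1
    linarith
  · have g0 : EG (n - d) ((1 - ε) * p) (fun G => (lam G : ℝ)) ≤ (n : ℝ) - 2 * d := by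
      rw [← hE]
      exact hM _ _ _ _ hlo hlo1 hp1 hmonf
    have g1 := hN2 n (n - d) ((1 - ε) * p) q hnN2 (Nat.sub_le _ _) hlo (by linarith) hq0 hqa (by
      rw [hcast]; linarith)
    have hpq : 0 ≤ (1 - ε) * p * q := mul_nonneg hlo hq0
    have g2 : EG (n - d) ((1 - ε) * p + q - (1 - ε) * p * q) (fun G => (lam G : ℝ)) ≤
        EG (n - d) p (fun G => (lam G : ℝ)) := by
      refine hM _ _ _ _ ?_ ?_ hp1 hmonf
      · have hq1 : q ≤ 1 := by
          have : ε * p ≤ 1 := by nlinarith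
          linarith
        have : (1 - ε) * p * q ≤ (1 - ε) * p := mul_le_of_le_one_right hlo hq1
        linarith
      · nlinarith
    rw [hgain] at g1
    rw [hE] at g2
    linarith

end Pool.Agent.W845.HC
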