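import Pool.Agent.W845.HC.Top
import Pool.Agent.W845.HC.Pst2
import Pool.Agent.W335.HC.Sup
import Pool.Agent.W381.HC.Genf
import Pool.Agent.W933.HC.Cher
import Pool.Agent.W762.HC.Ecyc
import Pool.Agent.W174.HC.Girth
import Pool.Agent.W577.HC.Fc
import Pool.Agent.W816.HC.Lam
import Pool.Agent.W121.HC.Flow
import Pool.Agent.W849.HC.Half
import Pool.Agent.W121.HC.Brk
import Pool.Agent.W924.HC.DUAL
import Pool.Agent.W351.HC.Cover
import Pool.Agent.W589.HC.G1
import Pool.Agent.W817.HC.Gain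
import Pool.Agent.W816.HC.Grow
import Pool.Agent.W705.HC.Pex
import Pool.Agent.W121.HC.Pst1
import Pool.Agent.W577.HC.Qth
import Pool.Agent.W653.HC.R1
import Pool.Agent.W705.HC.Close
import Pool.Agent.W705.HC.RotB
import Pool.Agent.W154.HC.Ends
import Pool.Agent.W645.HC.Goodp
import Pool.Agent.W658.HC.Round
import Pool.Agent.W845.HC.MergeB
import Pool.Agent.W918.HC.KBH
import Pool.Agent.W45.HC.Low
import Pool.Agent.W310.HC.High

set_option autoImplicit false

namespace Pool.Agent.W845.HC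

theorem t_sup : S_SUP := Pool.Agent.W335.HC.sup_thm
theorem t_mon : S_MON := Pool.Agent.W335.HC.mon t_sup
theorem t_genf : S_GENF := Pool.Agent.W381.HC.genf
theorem t_cher : S_CHER := Pool.Agent.W933.HC.cher t_genf
theorem t_ecyc : S_ECYC := Pool.Agent.W762.HC.ecyc t_genf
theorem t_girth : S_GIRTH := Pool.Agent.W174.HC.girth
theorem t_fc : S_FC := Pool.Agent.W577.HC.fc
theorem t_lam : S_LAM := Pool.Agent.W816.HC.lamT t_fc
theorem t_flow : S_FLOW := Pool.Agent.W121.HC.flow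
theorem t_half : S_HALF := Pool.Agent.W849.HC.half
theorem t_brk : S_BREAK := Pool.Agent.W121.HC.brk
theorem t_dual : S_DUAL := Pool.Agent.W924.HC.dual t_lam t_flow t_half t_brk t_girth
theorem t_cover : S_COVER := Pool.Agent.W351.HC.cover t_lam
theorem t_g1 : S_G1 := Pool.Agent.W589.HC.g1 t_lam t_sup t_cher t_ecyc t_cover t_dual
theorem t_gain : S_GAIN := Pool.Agent.W817.HC.gain t_lam t_fc t_genf
theorem t_grow : S_GROW := Pool.Agent.W816.HC.grow t_lam t_sup t_gain
theorem t_pex : S_PEX := Pool.Agent.W705.HC.pex t_lam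
theorem t_pst1 : S_PST1 := Pool.Agent.W121.HC.pst1 t_lam t_mon t_grow
theorem t_pst2 : S_PST2 := pst2 t_lam t_mon t_grow t_pst1
theorem t_qth : S_QTH := Pool.Agent.W577.HC.qth t_lam t_mon t_pst1 t_pst2
theorem t_r1 : S_R1 := Pool.Agent.W653.HC.r1 t_lam
theorem t_close : S_CLOSE := Pool.Agent.W705.HC.close t_fc
theorem t_r2 : S_R2 := Pool.Agent.W705.HC.r2 t_fc t_close
theorem t_ends : S_ENDS := Pool.Agent.W154.HC.ends t_fc
theorem t_dmono : S_DMONO := Pool.Agent.W154.HC.dmono t_lam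
theorem t_goodp : S_GOODP := Pool.Agent.W645.HC.goodp t_lam t_r1 t_r2 t_close t_ends
theorem t_round : S_ROUND := Pool.Agent.W658.HC.round_thm t_genf t_dmono t_goodp
theorem t_merge : S_MERGE := Pool.Agent.W845.HCM.merge t_lam t_sup t_dmono t_round
theorem t_kbh : S_KBH := Pool.Agent.W918.HC.kbh t_lam
theorem t_low : S_LOW := Pool.Agent.W45.HC.low t_lam t_mon t_qth t_kbh
theorem t_high : S_HIGH := Pool.Agent.W310.HC.high t_lam t_sup t_mon t_pst1 t_pst2 t_g1 t_merge

end Pool.Agent.W845.HC
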