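import Pool.Agent.W845.HC.Stm
import Pool.Agent.W803.PM.Ext
import Pool.Agent.W705.PM.Com
import Pool.Agent.W293.PM.Mcd
import Pool.Agent.W298.PM.PE
import Pool.Agent.W883.PM.Edge
import Pool.Agent.W371.PM.Lip

set_option autoImplicit false
open scoped Classical
open Filter Topology
open scoped BigOperators

namespace Pool.Agent.W845.HC

open Pool.Agent.W845.PM

/-! Facts on `G(n,p)` already proved in project PM. -/

theorem extT : S_EXT := Pool.Agent.W803.PM.ext_thm
theorem oneT : S_ONE := Pool.Agent.W803.PM.one_thm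
theorem comT : S_COM := Pool.Agent.W705.PM.com extT oneT
theorem mcdT : S_MCD := Pool.Agent.W293.PM.mcd extT oneT
theorem prodT : S_PROD := Pool.Agent.W298.PM.prod_thm
theorem edgeT : S_EDGE := Pool.Agent.W883.PM.edge extT oneT
theorem kbdT : S_KBD := Pool.Agent.W371.PM.kbd

end Pool.Agent.W845.HC
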