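import Pool.Agent.W845.HC.Base

set_option autoImplicit false
open scoped Classical
open Filter Topology
open scoped BigOperators

namespace Pool.Agent.W845.HC

open Pool.Agent.W845.PM

noncomputable section

/-- Probability of the property `P` under the binomial random graph `G(n,p)`. -/
def Prb (n : ℕ) (p : ℝ) (P : SimpleGraph (Fin n) → Prop) : ℝ :=
  EG n p (fun G => if P G then (1 : ℝ) else 0)

/-- `G` contains a linear forest with exactly `k` edges. -/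
def HasLF {m : ℕ} (k : ℕ) (G : SimpleGraph (Fin m)) : Prop :=
  ∃ F : SimpleGraph (Fin m), F ≤ G ∧ IsLF F ∧ ec F = k

/-- `pst` is a sharp `d`-threshold for Hamiltonicity of `H ∪ G(n,p)`, minimum degree of `H`
at least `d`. -/
def SharpHam (d : ℕ → ℕ) (pst : ℕ → ℝ) : Prop :=
  ∀ ε : ℝ, 0 < ε →
    (∃ H : (n : ℕ) → SimpleGraph (Fin n), (∀ᶠ n in atTop, d n ≤ (H n).minDegree) ∧
      ∀ p : ℕ → ℝ, (∀ n, 0 ≤ p n ∧ p n ≤ 1) → (∀ᶠ n in atTop, p n ≤ (1 - ε) * pst n) →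
        Tendsto (fun n => Prb n (p n) (fun R => (H n ⊔ R).IsHamiltonian)) atTop (𝓝 0)) ∧
    (∀ H : (n : ℕ) → SimpleGraph (Fin n), (∀ᶠ n in atTop, d n ≤ (H n).minDegree) →
      ∀ p : ℕ → ℝ, (∀ n, 0 ≤ p n ∧ p n ≤ 1) → (∀ᶠ n in atTop, (1 + ε) * pst n ≤ p n) →
        Tendsto (fun n => Prb n (p n) (fun R => (H n ⊔ R).IsHamiltonian)) atTop (𝓝 1))

/-- `pst` is a sharp threshold for the property that `G(n-d,p)` contains a linear forest with
`n-2d` edges. -/
def SharpLF (d : ℕ → ℕ) (pst : ℕ → ℝ) : Prop :=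
  ∀ ε : ℝ, 0 < ε → ∀ p : ℕ → ℝ, (∀ n, 0 ≤ p n ∧ p n ≤ 1) →
    ((∀ᶠ n in atTop, p n ≤ (1 - ε) * pst n) →
      Tendsto (fun n => Prb (n - d n) (p n) (HasLF (n - 2 * d n))) atTop (𝓝 0)) ∧
    ((∀ᶠ n in atTop, (1 + ε) * pst n ≤ p n) →
      Tendsto (fun n => Prb (n - d n) (p n) (HasLF (n - 2 * d n))) atTop (𝓝 1))

theorem Prb_nonneg {n : ℕ} {p : ℝ} (h0 : 0 ≤ p) (h1 : p ≤ 1) (P : SimpleGraph (Fin n) → Prop) :
    0 ≤ Prb n p P := by
  refine EG_nonneg h0 h1 fun G => ?_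
  split_ifs <;> norm_num

theorem Prb_le_one {n : ℕ} {p : ℝ} (h0 : 0 ≤ p) (h1 : p ≤ 1) (P : SimpleGraph (Fin n) → Prop) :
    Prb n p P ≤ 1 := by
  have h : Prb n p P ≤ EG n p (fun _ => 1) := by
    refine EG_mono h0 h1 fun G => ?_
    split_ifs <;> norm_num
  rwa [(oneT n p).1] at h

theorem tendsto_zero_of {f : ℕ → ℝ} (h0 : ∀ n, 0 ≤ f n)
    (h : ∀ δ : ℝ, 0 < δ → ∀ᶠ n in atTop, f n ≤ δ) : Tendsto f atTop (𝓝 0) := by
  rw [Metric.tendsto_atTop]
  intro δ hδ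
  obtain ⟨N, hN⟩ := eventually_atTop.1 (h (δ / 2) (by linarith))
  refine ⟨N, fun n hn => ?_⟩
  have := hN n hn
  rw [Real.dist_eq, sub_zero, abs_of_nonneg (h0 n)]
  linarith

theorem tendsto_one_of {f : ℕ → ℝ} (h0 : ∀ n, f n ≤ 1)
    (h : ∀ δ : ℝ, 0 < δ → ∀ᶠ n in atTop, 1 - δ ≤ f n) : Tendsto f atTop (𝓝 1) := by
  rw [Metric.tendsto_atTop]
  intro δ hδ
  obtain ⟨N, hN⟩ := eventually_atTop.1 (h (δ / 2) (by linarith))
  refine ⟨N, fun n hn => ?_⟩
  have := hN n hn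
  rw [Real.dist_eq, abs_sub_comm, abs_of_nonneg (by linarith [h0 n])]
  linarith

/-- A linear forest with exactly `k` edges exists iff `k ≤ lam G`. -/
theorem hasLF_iff (hlam : S_LAM) {m : ℕ} (k : ℕ) (G : SimpleGraph (Fin m)) :
    HasLF k G ↔ k ≤ lam G := by
  constructor
  · rintro ⟨F, h1, h2, h3⟩
    rw [← h3]
    exact hlam.2.1 _ G F h1 h2
  · intro hk
    obtain ⟨F, h1, h2, h3⟩ := hlam.1 _ G
    rw [← h3] at hk
    unfold ec at hk
    obtain ⟨s, hs, hcard⟩ := Set.exists_subset_card_eq hk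
    have hsub : SimpleGraph.fromEdgeSet s ≤ F := by
      intro x y hxy
      rw [SimpleGraph.fromEdgeSet_adj] at hxy
      have := hs hxy.1
      rwa [SimpleGraph.mem_edgeSet] at this
    refine ⟨SimpleGraph.fromEdgeSet s, hsub.trans h1, ⟨?_, ?_⟩, ?_⟩
    · exact h2.1.anti hsub
    · intro v
      refine le_trans ?_ (h2.2 v)
      unfold dg
      apply Finset.card_le_card
      intro w hw
      simp only [Finset.mem_filter, Finset.mem_univ, true_and] at hw ⊢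
      exact hsub hw
    · unfold ec
      rw [SimpleGraph.edgeSet_fromEdgeSet]
      have hd : s \ Sym2.diagSet = s := by
        refine sdiff_eq_left.2 ?_
        rw [Set.disjoint_left]
        intro e he hd
        have := SimpleGraph.not_isDiag_of_mem_edgeSet F (hs he)
        exact this (by simpa using hd)
      rw [hd, hcard]

theorem top (hlam : S_LAM) (hpex : S_PEX) (hpst : S_PST1) (hq : S_QTH) (hlow : S_LOW)
    (hhigh : S_HIGH) (a b : ℝ) (d : ℕ → ℕ) (ha : 0 < a) (hb : b < 1 / 2)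
    (hd : ∀ᶠ n : ℕ in atTop, a * n ≤ d n ∧ (d n : ℝ) ≤ b * n) :
    ∃ pst : ℕ → ℝ, (∃ c C : ℝ, 0 < c ∧ 0 < C ∧ ∀ᶠ n : ℕ in atTop,
      c / n ≤ pst n ∧ pst n ≤ C / n) ∧ SharpHam d pst ∧ SharpLF d pst := by
  -- the critical point
  have hex : ∀ n : ℕ, ∃ p : ℝ, 1 ≤ d n → 2 * d n ≤ n → Crit n (d n) p := by
    intro n
    by_cases h : 1 ≤ d n ∧ 2 * d n ≤ n
    · obtain ⟨p, hp⟩ := hpex n (d n) h.1 h.2
      exact ⟨p, fun _ _ => hp⟩
    · exact ⟨0, fun h1 h2 => absurd ⟨h1, h2⟩ h⟩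
  choose pst hpst0 using hex
  have hcrit : ∀ᶠ n : ℕ in atTop, a * n ≤ d n ∧ (d n : ℝ) ≤ b * n ∧ Crit n (d n) (pst n) := by
    filter_upwards [hd, eventually_gt_atTop 0] with n hn hn0
    have hn0' : (0 : ℝ) < n := by exact_mod_cast hn0
    refine ⟨hn.1, hn.2, hpst0 n ?_ ?_⟩
    · have h1 : (0 : ℝ) < d n := lt_of_lt_of_le (mul_pos ha hn0') hn.1
      exact_mod_cast h1
    · have h1 : (2 * d n : ℝ) ≤ n := by nlinarith [hn.2]
      exact_mod_cast h1
  obtain ⟨c0, C0, N0, hc0, hC0, hN0⟩ := hpst a b ha hb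
  refine ⟨pst, ⟨c0, C0, hc0, hC0, ?_⟩, ?_, ?_⟩
  · filter_upwards [hcrit, eventually_ge_atTop N0] with n hn hnN
    exact hN0 n (d n) (pst n) hnN hn.1 hn.2.1 hn.2.2
  · intro ε hε
    set ε' := min ε (1 / 2) with hε'
    have he0 : 0 < ε' := lt_min hε (by norm_num)
    have he1 : ε' < 1 := lt_of_le_of_lt (min_le_right _ _) (by norm_num)
    have hle : ε' ≤ ε := min_le_left _ _
    refine ⟨⟨fun n => KB n (d n), ?_, ?_⟩, ?_⟩
    · obtain ⟨N, hN⟩ := hlow a b ε' 1 ha hb he0 he1 one_pos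
      filter_upwards [hcrit, eventually_ge_atTop N] with n hn hnN
      refine (hN n (d n) (pst n) 0 hnN hn.1 hn.2.1 hn.2.2 le_rfl zero_le_one ?_).1
      exact mul_nonneg (by linarith) hn.2.2.1
    · intro p hp hpl
      refine tendsto_zero_of (fun n => Prb_nonneg (hp n).1 (hp n).2 _) fun δ hδ => ?_
      obtain ⟨N, hN⟩ := hlow a b ε' δ ha hb he0 he1 hδ
      filter_upwards [hcrit, hpl, eventually_ge_atTop N] with n hn hpn hnN
      refine (hN n (d n) (pst n) (p n) hnN hn.1 hn.2.1 hn.2.2 (hp n).1 (hp n).2 ?_).2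
      refine hpn.trans (mul_le_mul_of_nonneg_right (by linarith) hn.2.2.1)
    · intro H hH p hp hpu
      refine tendsto_one_of (fun n => Prb_le_one (hp n).1 (hp n).2 _) fun δ hδ => ?_
      obtain ⟨N, hN⟩ := hhigh a b ε' δ ha hb he0 he1 hδ
      filter_upwards [hcrit, hpu, hH, eventually_ge_atTop N] with n hn hpn hHn hnN
      refine hN n (d n) (pst n) (p n) (H n) hnN hn.1 hn.2.1 hn.2.2 (hp n).1 (hp n).2 ?_ hHn
      exact le_trans (mul_le_mul_of_nonneg_right (by linarith) hn.2.2.1) hpn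
  · intro ε hε p hp
    set ε' := min ε (1 / 2) with hε'
    have he0 : 0 < ε' := lt_min hε (by norm_num)
    have he1 : ε' < 1 := lt_of_le_of_lt (min_le_right _ _) (by norm_num)
    have hle : ε' ≤ ε := min_le_left _ _
    have hconv : ∀ n : ℕ, Prb (n - d n) (p n) (HasLF (n - 2 * d n)) =
        EG (n - d n) (p n) (fun G => if n ≤ lam G + 2 * d n then (1 : ℝ) else 0) := by
      intro n
      unfold Prb
      refine EG_congr fun G => ?_
      have : HasLF (n - 2 * d n) G ↔ n ≤ lam G + 2 * d n := by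
        rw [hasLF_iff hlam]
        omega
      simp only [this]
    constructor
    · intro hpl
      refine tendsto_zero_of (fun n => Prb_nonneg (hp n).1 (hp n).2 _) fun δ hδ => ?_
      obtain ⟨N, hN⟩ := hq a b ε' δ ha hb he0 he1 hδ
      filter_upwards [hcrit, hpl, eventually_ge_atTop N] with n hn hpn hnN
      rw [hconv]
      refine (hN n (d n) (pst n) (p n) hnN hn.1 hn.2.1 hn.2.2 (hp n).1 (hp n).2).2 ?_
      refine hpn.trans (mul_le_mul_of_nonneg_right (by linarith) hn.2.2.1)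
    · intro hpu
      refine tendsto_one_of (fun n => Prb_le_one (hp n).1 (hp n).2 _) fun δ hδ => ?_
      obtain ⟨N, hN⟩ := hq a b ε' δ ha hb he0 he1 hδ
      filter_upwards [hcrit, hpu, eventually_ge_atTop N] with n hn hpn hnN
      rw [hconv]
      refine (hN n (d n) (pst n) (p n) hnN hn.1 hn.2.1 hn.2.2 (hp n).1 (hp n).2).1 ?_
      exact le_trans (mul_le_mul_of_nonneg_right (by linarith) hn.2.2.1) hpn

end

end Pool.Agent.W845.HC
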